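import Pool.Agent.helper68.SF.SpecJ

/-!
# Project SF, module JE: the end cusps
-/

set_option autoImplicit false

namespace SF

open MeasureTheory Set
open scoped ContDiff

/-- the constant `c0² = 1/75 - 1/81 = 2/2025` -/
noncomputable def JE_c : ℝ := √(2 / 2025)

theorem JE_c_pos : 0 < JE_c := Real.sqrt_pos.2 (by norm_num)

theorem JE_c_sq : JE_c ^ 2 = 2 / 2025 := Real.sq_sqrt (by norm_num)

/-- a smooth function with compact support has bounded derivatives -/
theorem JE_bd (g : ℝ → ℝ) (hg : Prof g) : ∃ B : ℝ, Bd 4 B g := by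
  have hcs : HasCompactSupport g := by
    apply HasCompactSupport.of_support_subset_isCompact (isCompact_Icc (a := (1 : ℝ)) (b := 3))
    intro a ha
    rw [Function.mem_support] at ha
    constructor
    · by_contra h
      exact ha (hg.lo a (not_le.1 h).le)
    · by_contra h
      exact ha (hg.hi a (not_le.1 h).le)
  have hcs' : ∀ j : ℕ, HasCompactSupport (iteratedDeriv j g) := by
    intro j
    induction j with
    | zero => rw [iteratedDeriv_zero]; exact hcs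
    | succ j ih => rw [iteratedDeriv_succ]; exact ih.deriv
  have hcont : ∀ j : ℕ, Continuous (iteratedDeriv j g) := by
    intro j
    exact hg.smooth.continuous_iteratedDeriv j (by exact_mod_cast le_top)
  have h1 : ∀ j : ℕ, ∃ C : ℝ, ∀ x, ‖iteratedDeriv j g x‖ ≤ C := fun j =>
    (hcs' j).exists_bound_of_continuous (hcont j)
  choose C hC using h1
  refine ⟨∑ j ∈ Finset.range 5, |C j|, ?_⟩
  intro j hj a
  calc |iteratedDeriv j g a| ≤ C j := hC j a
    _ ≤ |C j| := le_abs_self _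
    _ ≤ _ := Finset.single_le_sum (f := fun j => |C j|) (fun i _ => abs_nonneg _)
      (Finset.mem_range.2 (by omega))

section smooth

variable {F : ℝ → ℝ → ℝ → ℝ}

theorem JE_hasFDerivAt (hF : Sm F) (s x y : ℝ) (hy : 0 < y) :
    HasFDerivAt (fun p : ℝ × ℝ × ℝ => F p.1 p.2.1 p.2.2)
      (fderiv ℝ (fun p : ℝ × ℝ × ℝ => F p.1 p.2.1 p.2.2) (s, x, y)) (s, x, y) := by
  have hopen : IsOpen {p : ℝ × ℝ × ℝ | 0 < p.2.2} :=
    isOpen_lt continuous_const (continuous_snd.comp continuous_snd)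
  exact ((hF.contDiffAt (hopen.mem_nhds hy)).differentiableAt (by simp)).hasFDerivAt

theorem JE_dX (hF : Sm F) (s x y : ℝ) (hy : 0 < y) :
    dX F s x y = fderiv ℝ (fun p : ℝ × ℝ × ℝ => F p.1 p.2.1 p.2.2) (s, x, y) (0, 1, 0) := by
  have h1 := JE_hasFDerivAt hF s x y hy
  have h2 : HasDerivAt (fun t : ℝ => ((s, t, y) : ℝ × ℝ × ℝ)) (0, 1, 0) x :=
    (hasDerivAt_const x s).prodMk ((hasDerivAt_id x).prodMk (hasDerivAt_const x y))
  exact (h1.comp_hasDerivAt x h2).deriv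

theorem JE_cont (hF : Sm F) (l l' : ℝ) (hl : 0 < l) (hl' : 0 < l') :
    ContinuousOn (fun y => 1 / √(qq l l' y) * dX F (-(1 / 2) * Real.log (qq l l' y)) 0 y)
      (Ioi 0) := by
  have hopen : IsOpen {p : ℝ × ℝ × ℝ | 0 < p.2.2} :=
    isOpen_lt continuous_const (continuous_snd.comp continuous_snd)
  have hq : ContinuousOn (fun y => qq l l' y) (Ioi 0) := by
    unfold qq
    exact (continuousOn_id.mul continuousOn_const).add
      (continuousOn_const.div continuousOn_id fun y hy => (mem_Ioi.1 hy).ne')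
  have hqpos : ∀ y ∈ Ioi (0 : ℝ), 0 < qq l l' y := by
    intro y hy
    have hy' : 0 < y := hy
    unfold qq; positivity
  have h1 : ContinuousOn (fun p : ℝ × ℝ × ℝ =>
      fderiv ℝ (fun p : ℝ × ℝ × ℝ => F p.1 p.2.1 p.2.2) p (0, 1, 0)) {p | 0 < p.2.2} :=
    (hF.continuousOn_fderiv_of_isOpen hopen (by exact_mod_cast le_top)).clm_apply
      continuousOn_const
  have h2 : ContinuousOn (fun y : ℝ =>
      ((-(1 / 2) * Real.log (qq l l' y), 0, y) : ℝ × ℝ × ℝ)) (Ioi 0) := by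
    refine ContinuousOn.prodMk ?_ (continuousOn_const.prodMk continuousOn_id)
    exact continuousOn_const.mul (hq.log fun y hy => (hqpos y hy).ne')
  have h3 := h1.comp h2 (fun y hy => hy)
  have h4 : ContinuousOn (fun y => 1 / √(qq l l' y)) (Ioi 0) :=
    continuousOn_const.div hq.sqrt fun y hy => (Real.sqrt_pos.2 (hqpos y hy)).ne'
  refine (h4.mul h3).congr ?_
  intro y hy
  simp only [Pi.mul_apply, Function.comp]
  rw [JE_dX hF _ _ _ hy]

/-- the derivative after the inversion -/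
theorem JE_inv (hF : Sm F) (s y : ℝ) (hy : 0 < y) :
    deriv (fun t => F s (-(t / (t ^ 2 + y ^ 2))) (y / (t ^ 2 + y ^ 2))) 0 =
      -(1 / y ^ 2) * dX F s 0 (1 / y) := by
  have hy1 : 0 < 1 / y := by positivity
  have h1 := JE_hasFDerivAt hF s 0 (1 / y) hy1
  have hd : HasDerivAt (fun t : ℝ => t ^ 2 + y ^ 2) 0 0 := by
    have := ((hasDerivAt_id (0 : ℝ)).pow 2).add_const (y ^ 2)
    simpa using this
  have hne : (fun t : ℝ => t ^ 2 + y ^ 2) 0 ≠ 0 := by
    simp only; positivity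
  have h2 : HasDerivAt (fun t : ℝ => -(t / (t ^ 2 + y ^ 2)))
      (-((1 * (0 ^ 2 + y ^ 2) - 0 * 0) / (0 ^ 2 + y ^ 2) ^ 2)) 0 :=
    ((hasDerivAt_id (0 : ℝ)).div hd hne).neg
  have e2 : -((1 * (0 ^ 2 + y ^ 2) - 0 * 0) / (0 ^ 2 + y ^ 2) ^ 2) = -(1 / y ^ 2) := by
    field_simp
    ring
  rw [e2] at h2
  have h3 : HasDerivAt (fun t : ℝ => y / (t ^ 2 + y ^ 2))
      ((0 * (0 ^ 2 + y ^ 2) - y * 0) / (0 ^ 2 + y ^ 2) ^ 2) 0 :=
    (hasDerivAt_const (0 : ℝ) y).div hd hne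
  have e3 : (0 * (0 ^ 2 + y ^ 2) - y * 0) / (0 ^ 2 + y ^ 2) ^ 2 = 0 := by
    rw [zero_mul, mul_zero, sub_zero, zero_div]
  rw [e3] at h3
  have h4 : HasDerivAt (fun t : ℝ =>
      ((s, -(t / (t ^ 2 + y ^ 2)), y / (t ^ 2 + y ^ 2)) : ℝ × ℝ × ℝ)) (0, -(1 / y ^ 2), 0) 0 :=
    (hasDerivAt_const (0 : ℝ) s).prodMk (h2.prodMk h3)
  have h5 : ((s, 0, 1 / y) : ℝ × ℝ × ℝ) =
      (fun t : ℝ => ((s, -(t / (t ^ 2 + y ^ 2)), y / (t ^ 2 + y ^ 2)) : ℝ × ℝ × ℝ)) 0 := by
    simp only [Prod.mk.injEq, true_and]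
    constructor
    · simp
    · field_simp
      ring
  rw [h5] at h1
  have h6 := h1.comp_hasDerivAt (0 : ℝ) h4
  have h7 := h6.deriv
  rw [← h5] at h7
  refine (Eq.trans ?_ h7).trans ?_
  · rfl
  · rw [JE_dX hF _ _ _ hy1]
    have : ((0, -(1 / y ^ 2), 0) : ℝ × ℝ × ℝ) = (-(1 / y ^ 2)) • (0, 1, 0) := by
      simp
    rw [this, map_smul, smul_eq_mul]

end smooth

/-- the sum vanishes in the high regime -/
theorem JE_high (hRH : RH_stmt) (g : ℝ → ℝ) (hg : Prof g) (s y : ℝ) (hy : 0 < y)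
    (hA : 3 ≤ Real.exp (2 * s) / (25 * y)) : dX (fun s x y => RR g s x y 0) s 0 y = 0 := by
  have h1 : (fun t => RR g s t y 0) =ᶠ[nhds 0] fun _ => 0 := by
    have h2 : Ioo (-(1 / 5) : ℝ) (1 / 5) ∈ nhds (0 : ℝ) := Ioo_mem_nhds (by norm_num) (by norm_num)
    filter_upwards [h2] with x hx
    unfold RR
    have h3 : ∀ k : ℤ, Bk g s x y 0 k = 0 := by
      intro k
      rw [hRH g hg s x y 0 k hy hA]
      have h4 : ∀ r : ℝ, 1 / 5 ≤ r → r ≤ 4 / 5 →
          Real.sign (0 + k + r) - Real.sign (x + k + r) = 0 := by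
        intro r hr1 hr2
        rcases le_or_gt 0 k with hk | hk
        · have hk' : (0 : ℝ) ≤ k := by exact_mod_cast hk
          rw [Real.sign_of_pos (by linarith), Real.sign_of_pos (by linarith [hx.1]), sub_self]
        · have hk' : (k : ℝ) ≤ -1 := by exact_mod_cast (by omega : k ≤ -1)
          rw [Real.sign_of_neg (by linarith), Real.sign_of_neg (by linarith [hx.2]), sub_self]
      unfold c5
      beta_reduce
      rw [h4 (1 / 5) (by norm_num) (by norm_num), h4 (2 / 5) (by norm_num) (by norm_num),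
        h4 (3 / 5) (by norm_num) (by norm_num), h4 (4 / 5) (by norm_num) (by norm_num)]
      ring
    simp only [h3, tsum_zero]
  unfold dX
  rw [h1.deriv_eq]
  exact deriv_const _ _

/-- the pointwise bound -/
theorem JE_point (hRH : RH_stmt) (hRB : RB_stmt) (g : ℝ → ℝ) (hg : Prof g) :
    ∃ K : ℝ, 0 ≤ K ∧ ∀ l l' y : ℝ, 0 < l → 0 < l' → l < 1 / 9 → 0 < y →
      |1 / √(qq l l' y) * dX (fun s x y => RR g s x y 0) (-(1 / 2) * Real.log (qq l l' y)) 0 y| ≤
        K / (l' ^ 2 * y ^ 3) ∧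
      (y * l' ≤ JE_c → 1 / √(qq l l' y) *
        dX (fun s x y => RR g s x y 0) (-(1 / 2) * Real.log (qq l l' y)) 0 y = 0) := by
  obtain ⟨C, hC, hb⟩ := hRB
  obtain ⟨B, hB⟩ := JE_bd g hg
  have hB0 : 0 ≤ B := (abs_nonneg _).trans (hB 0 (by omega) 0)
  refine ⟨256 * (C * B), by positivity, ?_⟩
  intro l l' y hl hl' hl9 hy
  have hq : 0 < qq l l' y := by unfold qq; positivity
  have hs2 : Real.exp (2 * (-(1 / 2) * Real.log (qq l l' y))) = 1 / qq l l' y := by
    rw [show 2 * (-(1 / 2) * Real.log (qq l l' y)) = -Real.log (qq l l' y) by ring, Real.exp_neg,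
      Real.exp_log hq, one_div]
  have hs1 : Real.exp (-(1 / 2) * Real.log (qq l l' y)) = 1 / √(qq l l' y) := by
    have h1 : √(qq l l' y) = Real.exp (1 / 2 * Real.log (qq l l' y)) := by
      rw [Real.sqrt_eq_rpow, Real.rpow_def_of_pos hq, mul_comm]
    rw [h1, one_div (Real.exp _), ← Real.exp_neg]
    congr 1
    ring
  have hyq : y * qq l l' y = y ^ 2 * l' ^ 2 + l ^ 2 := by
    unfold qq
    field_simp
  have hAeq : 1 / qq l l' y / (25 * y) = 1 / (25 * (y ^ 2 * l' ^ 2 + l ^ 2)) := by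
    rw [← hyq, div_div]
    congr 1
    ring
  have hpos : 0 < y ^ 2 * l' ^ 2 + l ^ 2 := by positivity
  have hhigh : 75 * (y ^ 2 * l' ^ 2 + l ^ 2) ≤ 1 →
      dX (fun s x y => RR g s x y 0) (-(1 / 2) * Real.log (qq l l' y)) 0 y = 0 := by
    intro h
    apply JE_high hRH g hg _ y hy
    rw [hs2, hAeq, le_div_iff₀ (by positivity)]
    linarith
  constructor
  · by_cases h : 75 * (y ^ 2 * l' ^ 2 + l ^ 2) ≤ 1
    · rw [hhigh h, mul_zero, abs_zero]
      positivity
    · push Not at h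
      have h1 := (hb g B hg hB (-(1 / 2) * Real.log (qq l l' y)) 0 y 0 hy).2.1
      rw [hs2, hs1, hAeq] at h1
      have hA : 1 / (25 * (y ^ 2 * l' ^ 2 + l ^ 2)) ≤ 3 := by
        rw [div_le_iff₀ (by positivity)]
        linarith
      have hA0 : 0 ≤ 1 / (25 * (y ^ 2 * l' ^ 2 + l ^ 2)) := by positivity
      have h4 : (1 + 1 / (25 * (y ^ 2 * l' ^ 2 + l ^ 2))) ^ 4 ≤ 256 := by
        calc _ ≤ (1 + 3 : ℝ) ^ 4 := by gcongr
          _ = 256 := by norm_num
      have hsq : 1 / √(qq l l' y) * (1 / √(qq l l' y)) = 1 / qq l l' y := by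
        rw [div_mul_div_comm, one_mul, Real.mul_self_sqrt hq.le]
      have hql : y * l' ^ 2 ≤ qq l l' y := by
        unfold qq
        have : 0 ≤ l ^ 2 / y := by positivity
        linarith
      rw [abs_mul, abs_of_nonneg (by positivity : 0 ≤ 1 / √(qq l l' y))]
      calc 1 / √(qq l l' y) *
            |dX (fun s x y => RR g s x y 0) (-(1 / 2) * Real.log (qq l l' y)) 0 y|
          ≤ 1 / √(qq l l' y) * (C * B * (1 / √(qq l l' y)) *
            (1 + 1 / (25 * (y ^ 2 * l' ^ 2 + l ^ 2))) ^ 4 / y ^ 2) := by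
            gcongr
        _ ≤ 1 / √(qq l l' y) * (C * B * (1 / √(qq l l' y)) * 256 / y ^ 2) := by
            gcongr
        _ = 256 * (C * B) * (1 / √(qq l l' y) * (1 / √(qq l l' y))) / y ^ 2 := by ring
        _ = 256 * (C * B) * (1 / qq l l' y) / y ^ 2 := by rw [hsq]
        _ ≤ 256 * (C * B) * (1 / (y * l' ^ 2)) / y ^ 2 := by gcongr
        _ = 256 * (C * B) / (l' ^ 2 * y ^ 3) := by
            field_simp
  · intro h
    rw [hhigh, mul_zero]
    have h1 : y ^ 2 * l' ^ 2 ≤ 2 / 2025 := by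
      rw [← mul_pow, ← JE_c_sq]
      gcongr
    have h2 : l ^ 2 ≤ (1 / 9) ^ 2 := by gcongr
    norm_num at h2
    linarith

/-- the first cusp -/
theorem JE_one (hRA : RA_stmt) (hRH : RH_stmt) (hRB : RB_stmt) (g : ℝ → ℝ) (hg : Prof g) :
    ∃ C : ℝ, ∀ l l' : ℝ, 0 < l → 0 < l' → l + l' ≤ 1 / 9 →
      IntegrableOn (fun y => 1 / √(qq l l' y) *
        dX (fun s x y => RR g s x y 0) (-(1 / 2) * Real.log (qq l l' y)) 0 y) (Ioi 0) ∧
      |∫ y in Ioi (0 : ℝ), 1 / √(qq l l' y) *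
        dX (fun s x y => RR g s x y 0) (-(1 / 2) * Real.log (qq l l' y)) 0 y| ≤ C := by
  obtain ⟨K, hK, hp⟩ := JE_point hRH hRB g hg
  refine ⟨K * (1 / (2 * JE_c ^ 2)), ?_⟩
  intro l l' hl hl' hll
  have hc := JE_c_pos
  have hc1 : 0 < JE_c / l' := by positivity
  set I : ℝ → ℝ := fun y => 1 / √(qq l l' y) *
    dX (fun s x y => RR g s x y 0) (-(1 / 2) * Real.log (qq l l' y)) 0 y with hI
  set D : ℝ → ℝ := (Ioi (JE_c / l')).indicator (fun y => K / l' ^ 2 * y ^ (-3 : ℝ)) with hD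
  have hDint : IntegrableOn (fun y : ℝ => K / l' ^ 2 * y ^ (-3 : ℝ)) (Ioi (JE_c / l')) :=
    (integrableOn_Ioi_rpow_of_lt (by norm_num) hc1).const_mul _
  have hDi : Integrable D := (integrable_indicator_iff measurableSet_Ioi).2 hDint
  have hbound : ∀ y ∈ Ioi (0 : ℝ), ‖I y‖ ≤ D y := by
    intro y hy
    have hy' : 0 < y := hy
    obtain ⟨h1, h2⟩ := hp l l' y hl hl' (by linarith) hy'
    by_cases h : JE_c / l' < y
    · rw [hD, indicator_of_mem (show y ∈ Ioi (JE_c / l') from h), Real.norm_eq_abs]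
      refine h1.trans (le_of_eq ?_)
      rw [Real.rpow_neg hy'.le, show (3 : ℝ) = ((3 : ℕ) : ℝ) by norm_num, Real.rpow_natCast]
      field_simp
    · push Not at h
      have h3 : I y = 0 := h2 (by rwa [le_div_iff₀ hl'] at h)
      rw [h3, norm_zero, hD]
      apply indicator_nonneg
      intro z hz
      have hz' : 0 < z := hc1.trans hz
      positivity
  have hmeas : AEStronglyMeasurable I (volume.restrict (Ioi 0)) :=
    (JE_cont (hRA g hg 0).1 l l' hl hl').aestronglyMeasurable measurableSet_Ioi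
  have hint : IntegrableOn I (Ioi 0) := by
    refine Integrable.mono' hDi.integrableOn hmeas ?_
    exact (ae_restrict_iff' measurableSet_Ioi).2 (Filter.Eventually.of_forall hbound)
  refine ⟨hint, ?_⟩
  have h1 : ‖∫ y in Ioi (0 : ℝ), I y‖ ≤ ∫ y in Ioi (0 : ℝ), D y :=
    norm_integral_le_of_norm_le hDi.integrableOn
      ((ae_restrict_iff' measurableSet_Ioi).2 (Filter.Eventually.of_forall hbound))
  rw [Real.norm_eq_abs] at h1
  refine h1.trans (le_of_eq ?_)
  rw [hD, setIntegral_indicator measurableSet_Ioi]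
  have h2 : Ioi (0 : ℝ) ∩ Ioi (JE_c / l') = Ioi (JE_c / l') := by
    rw [Ioi_inter_Ioi, sup_of_le_right hc1.le]
  rw [h2, integral_const_mul, integral_Ioi_rpow_of_lt (by norm_num) hc1]
  rw [show (-3 : ℝ) + 1 = -((2 : ℕ) : ℝ) by norm_num, Real.rpow_neg hc1.le, Real.rpow_natCast]
  push_cast
  field_simp

/-- the second cusp -/
theorem JE_two (hRA : RA_stmt) (hRH : RH_stmt) (hRB : RB_stmt) (g : ℝ → ℝ) (hg : Prof g) :
    ∃ C : ℝ, ∀ l l' : ℝ, 0 < l → 0 < l' → l + l' ≤ 1 / 9 →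
      IntegrableOn (fun y => 1 / √(qq l l' y) * (-(1 / y ^ 2) *
        dX (fun s x y => RR g s x y 0) (-(1 / 2) * Real.log (qq l l' y)) 0 (1 / y))) (Ioi 0) ∧
      |∫ y in Ioi (0 : ℝ), 1 / √(qq l l' y) * (-(1 / y ^ 2) *
        dX (fun s x y => RR g s x y 0) (-(1 / 2) * Real.log (qq l l' y)) 0 (1 / y))| ≤ C := by
  obtain ⟨K, hK, hp⟩ := JE_point hRH hRB g hg
  refine ⟨K * (1 / (2 * JE_c ^ 2)), ?_⟩
  intro l l' hl hl' hll
  have hc := JE_c_pos
  have hc1 : 0 < l / JE_c := by positivity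
  set J : ℝ → ℝ := fun y => 1 / √(qq l' l y) *
    dX (fun s x y => RR g s x y 0) (-(1 / 2) * Real.log (qq l' l y)) 0 y with hJ
  set I : ℝ → ℝ := fun y => 1 / √(qq l l' y) * (-(1 / y ^ 2) *
    dX (fun s x y => RR g s x y 0) (-(1 / 2) * Real.log (qq l l' y)) 0 (1 / y)) with hI
  have hIJ : ∀ y ∈ Ioi (0 : ℝ), I y = -(1 / y ^ 2) * J (1 / y) := by
    intro y hy
    have hy' : 0 < y := hy
    have h1 : qq l' l (1 / y) = qq l l' y := by
      unfold qq
      field_simp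
      ring
    simp only [hI, hJ, h1]
    ring
  set D : ℝ → ℝ := (Iic (l / JE_c)).indicator (fun y => K / l ^ 2 * y) with hD
  have hDint : IntegrableOn (fun y : ℝ => K / l ^ 2 * y) (Ioc 0 (l / JE_c)) :=
    ((continuous_const.mul continuous_id).continuousOn.integrableOn_Icc).mono_set Ioc_subset_Icc_self
  have hDi : IntegrableOn D (Ioi 0) := by
    rw [hD, IntegrableOn, integrable_indicator_iff measurableSet_Iic]
    rw [IntegrableOn, Measure.restrict_restrict measurableSet_Iic, inter_comm, Ioi_inter_Iic]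
    exact hDint
  have hbound : ∀ y ∈ Ioi (0 : ℝ), ‖I y‖ ≤ D y := by
    intro y hy
    have hy' : 0 < y := hy
    have hy1 : 0 < 1 / y := by positivity
    obtain ⟨h1, h2⟩ := hp l' l (1 / y) hl' hl (by linarith) hy1
    rw [hIJ y hy, norm_mul, norm_neg, Real.norm_eq_abs, Real.norm_eq_abs,
      abs_of_nonneg (by positivity : 0 ≤ 1 / y ^ 2)]
    by_cases h : y ≤ l / JE_c
    · rw [hD, indicator_of_mem (show y ∈ Iic (l / JE_c) from h)]
      calc 1 / y ^ 2 * |J (1 / y)| ≤ 1 / y ^ 2 * (K / (l ^ 2 * (1 / y) ^ 3)) := by gcongr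
        _ = K / l ^ 2 * y := by field_simp
    · push Not at h
      have h3 : J (1 / y) = 0 := by
        apply h2
        rw [div_lt_iff₀ hc] at h
        rw [one_div, inv_mul_eq_div, div_le_iff₀ hy']
        linarith
      rw [h3, abs_zero, mul_zero, hD, indicator_of_notMem (by simpa using h)]
  have hJcont := JE_cont (hRA g hg 0).1 l' l hl' hl
  have hIcont : ContinuousOn I (Ioi 0) := by
    have h1 : ContinuousOn (fun y : ℝ => 1 / y) (Ioi 0) :=
      continuousOn_const.div continuousOn_id fun y hy => (mem_Ioi.1 hy).ne'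
    have h2 : ContinuousOn (fun y : ℝ => J (1 / y)) (Ioi 0) :=
      hJcont.comp h1 fun y hy => by
        have : 0 < y := hy
        change 0 < 1 / y
        positivity
    have h3 : ContinuousOn (fun y : ℝ => -(1 / y ^ 2)) (Ioi 0) :=
      (continuousOn_const.div (continuousOn_id.pow 2)
        fun y hy => pow_ne_zero _ (mem_Ioi.1 hy).ne').neg
    exact (h3.mul h2).congr hIJ
  have hmeas : AEStronglyMeasurable I (volume.restrict (Ioi 0)) :=
    hIcont.aestronglyMeasurable measurableSet_Ioi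
  have hint : IntegrableOn I (Ioi 0) := by
    refine Integrable.mono' hDi hmeas ?_
    exact (ae_restrict_iff' measurableSet_Ioi).2 (Filter.Eventually.of_forall hbound)
  refine ⟨hint, ?_⟩
  have h1 : ‖∫ y in Ioi (0 : ℝ), I y‖ ≤ ∫ y in Ioi (0 : ℝ), D y :=
    norm_integral_le_of_norm_le hDi
      ((ae_restrict_iff' measurableSet_Ioi).2 (Filter.Eventually.of_forall hbound))
  rw [Real.norm_eq_abs] at h1
  refine h1.trans (le_of_eq ?_)
  rw [hD, setIntegral_indicator measurableSet_Iic, Ioi_inter_Iic,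
    ← intervalIntegral.integral_of_le hc1.le, intervalIntegral.integral_const_mul, integral_id]
  field_simp
  ring

theorem JE_unit (a b : ℤ) (h : a * b = 1) : b = a ∧ a ^ 2 = 1 := by
  rcases Int.eq_one_or_neg_one_of_mul_eq_one h with h' | h'
  · rw [h', one_mul] at h
    rw [h', h]
    norm_num
  · rw [h', neg_one_mul] at h
    have hb : b = -1 := by linarith
    rw [h', hb]
    norm_num

/-- JE -/
theorem JE (hRA : RA_stmt) (hRH : RH_stmt) (hRB : RB_stmt) (hRO : RO_stmt) : JE_stmt := by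
  intro g hg
  obtain ⟨C₁, h₁⟩ := JE_one hRA hRH hRB g hg
  obtain ⟨C₂, h₂⟩ := JE_two hRA hRH hRB g hg
  refine ⟨max C₁ C₂, ?_⟩
  intro l l' hl hl' hll v hv hv0
  have hgcd : Int.gcd v.1 v.2 = 1 := hv
  have hbez : (1 : ℤ) = v.1 * Int.gcdA v.1 v.2 + v.2 * Int.gcdB v.1 v.2 := by
    rw [← Int.gcd_eq_gcd_ab, hgcd]
    rfl
  by_cases h1 : v.1 = 0
  · -- the first cusp
    have hv2 : v.2 * Int.gcdB v.1 v.2 = 1 := by
      have h : v.1 * Int.gcdA v.1 v.2 = 0 := by rw [h1, zero_mul]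
      linarith
    obtain ⟨hBz, hsq⟩ := JE_unit _ _ hv2
    have hd2 : (v.2 : ℝ) ^ 2 = 1 := by exact_mod_cast hsq
    have hB : (Int.gcdB v.1 v.2 : ℝ) = v.2 := by exact_mod_cast hBz
    have hv1r : (v.1 : ℝ) = 0 := by exact_mod_cast h1
    have hX : ∀ x y : ℝ, XX v x y = x + ((-(Int.gcdA v.1 v.2 * v.2) : ℤ) : ℝ) := by
      intro x y
      unfold XX Xr
      rw [hB, hv1r]
      push_cast
      rw [show ((0 : ℝ) * x + v.2) ^ 2 + (0 * y) ^ 2 = 1 by rw [← hd2]; ring, div_one]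
      have : ((v.2 : ℝ) * x + -(Int.gcdA v.1 v.2 : ℝ)) * (0 * x + v.2) + v.2 * 0 * y ^ 2 =
          (v.2 : ℝ) ^ 2 * x + -((Int.gcdA v.1 v.2 : ℝ) * v.2) := by ring
      rw [this, hd2, one_mul]
    have hY : ∀ x y : ℝ, YY v x y = y := by
      intro x y
      unfold YY Yr
      rw [hv1r, show ((0 : ℝ) * x + v.2) ^ 2 + (0 * y) ^ 2 = 1 by rw [← hd2]; ring, div_one]
    have hRV : ∀ s x y : ℝ, 0 < y → RV g v s x y = RR g s x y 0 := by
      intro s x y hy
      unfold RV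
      rw [hX, hX, hY]
      exact (hRO g hg s x y 0 hy).2 _
    have hd : ∀ s x y : ℝ, 0 < y → dX (RV g v) s x y = dX (fun s x y => RR g s x y 0) s x y := by
      intro s x y hy
      unfold dX
      congr 1
      funext t
      exact hRV s t y hy
    have hcongr : EqOn (fun y => 1 / √(qq l l' y) * dX (RV g v) (-(1 / 2) * Real.log (qq l l' y)) 0 y)
        (fun y => 1 / √(qq l l' y) *
          dX (fun s x y => RR g s x y 0) (-(1 / 2) * Real.log (qq l l' y)) 0 y) (Ioi 0) := by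
      intro y hy
      simp only
      rw [hd _ _ _ hy]
    obtain ⟨h3, h4⟩ := h₁ l l' hl hl' hll
    refine ⟨h3.congr_fun hcongr.symm measurableSet_Ioi, ?_⟩
    rw [setIntegral_congr_fun measurableSet_Ioi hcongr]
    exact h4.trans (le_max_left _ _)
  · -- the second cusp
    have h2 : v.2 = 0 := hv0.resolve_left h1
    have hv1 : v.1 * Int.gcdA v.1 v.2 = 1 := by
      have h : v.2 * Int.gcdB v.1 v.2 = 0 := by rw [h2, zero_mul]
      linarith
    obtain ⟨hAz, hsq⟩ := JE_unit _ _ hv1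
    have hd2 : (v.1 : ℝ) ^ 2 = 1 := by exact_mod_cast hsq
    have hA : (Int.gcdA v.1 v.2 : ℝ) = v.1 := by exact_mod_cast hAz
    have hv2r : (v.2 : ℝ) = 0 := by exact_mod_cast h2
    have hX : ∀ x y : ℝ, 0 < y → XX v x y = -(x / (x ^ 2 + y ^ 2)) +
        ((Int.gcdB v.1 v.2 * v.1 : ℤ) : ℝ) := by
      intro x y hy
      have hr : 0 < x ^ 2 + y ^ 2 := by positivity
      unfold XX Xr
      rw [hA, hv2r]
      push_cast
      rw [show ((v.1 : ℝ) * x + 0) ^ 2 + (v.1 * y) ^ 2 = x ^ 2 + y ^ 2 by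
        rw [add_zero, mul_pow, mul_pow, hd2, one_mul, one_mul]]
      have e1 : ((Int.gcdB v.1 v.2 : ℝ) * x + -(v.1 : ℝ)) * (v.1 * x + 0) +
          Int.gcdB v.1 v.2 * v.1 * y ^ 2 =
          -((v.1 : ℝ) ^ 2 * x) + Int.gcdB v.1 v.2 * v.1 * (x ^ 2 + y ^ 2) := by ring
      have e2 : (-(x / (x ^ 2 + y ^ 2)) + (Int.gcdB v.1 v.2 : ℝ) * v.1) * (x ^ 2 + y ^ 2) =
          -(x / (x ^ 2 + y ^ 2) * (x ^ 2 + y ^ 2)) +
            Int.gcdB v.1 v.2 * v.1 * (x ^ 2 + y ^ 2) := by ring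
      rw [div_eq_iff hr.ne', e1, e2, hd2, one_mul, div_mul_cancel₀ _ hr.ne']
    have hY : ∀ x y : ℝ, YY v x y = y / (x ^ 2 + y ^ 2) := by
      intro x y
      unfold YY Yr
      rw [hv2r, show ((v.1 : ℝ) * x + 0) ^ 2 + (v.1 * y) ^ 2 = x ^ 2 + y ^ 2 by
        rw [add_zero, mul_pow, mul_pow, hd2, one_mul, one_mul]]
    have hRV : ∀ s x y : ℝ, 0 < y → RV g v s x y =
        RR g s (-(x / (x ^ 2 + y ^ 2))) (y / (x ^ 2 + y ^ 2)) 0 := by
      intro s x y hy
      have hr : 0 < x ^ 2 + y ^ 2 := by positivity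
      unfold RV
      rw [hX x y hy, hX 0 1 one_pos, hY, zero_div, neg_zero]
      exact (hRO g hg s _ _ 0 (by positivity)).2 _
    have hd : ∀ s y : ℝ, 0 < y → dX (RV g v) s 0 y =
        -(1 / y ^ 2) * dX (fun s x y => RR g s x y 0) s 0 (1 / y) := by
      intro s y hy
      rw [← JE_inv (hRA g hg 0).1 s y hy]
      unfold dX
      congr 1
      funext t
      exact hRV s t y hy
    have hcongr : EqOn (fun y => 1 / √(qq l l' y) * dX (RV g v) (-(1 / 2) * Real.log (qq l l' y)) 0 y)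
        (fun y => 1 / √(qq l l' y) * (-(1 / y ^ 2) *
          dX (fun s x y => RR g s x y 0) (-(1 / 2) * Real.log (qq l l' y)) 0 (1 / y))) (Ioi 0) := by
      intro y hy
      simp only
      rw [hd _ _ hy]
    obtain ⟨h3, h4⟩ := h₂ l l' hl hl' hll
    refine ⟨h3.congr_fun hcongr.symm measurableSet_Ioi, ?_⟩
    rw [setIntegral_congr_fun measurableSet_Ioi hcongr]
    exact h4.trans (le_max_right _ _)

end SF
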